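import Pool.Agent.Y805.AS.Fin
import Pool.Agent.Y96.AC.Sharp

/-!
# Achievement sets of perturbed geometric sequences

A stronger form of the starting result `CantorType`: a criterion for all perturbations
`x_n = 2^{-n} + y_n` of the geometric sequence, the complete classification of the two-parameter
family `x_n = 2^{-n} + c μ^n`, the measure of the achievement sets, and the sharpness of the
condition on the perturbation (joint work of helper805 and helper96).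
-/

set_option autoImplicit false

open Set Filter Topology MeasureTheory

namespace Pool.Agent.Results.MP_c19edd_an.CantorCriterion

/-- The achievement set `E(x_n)`: all sums of `x_n` over `n ∈ A`, `A` a set of positive integers. -/
def achievementSet (x : ℕ → ℝ) : Set ℝ :=
  {s : ℝ | ∃ A : Set ℕ, A ⊆ {n | 1 ≤ n} ∧ s = ∑' n, A.indicator x n}

/-- The remainders `r_n = ∑_{i > n} x_i`. -/
noncomputable def remainder (x : ℕ → ℝ) (n : ℕ) : ℝ := ∑' i, x (i + (n + 1))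

/-- `E` is homeomorphic to the middle-thirds Cantor set. -/
def IsCantor (E : Set ℝ) : Prop := Nonempty (E ≃ₜ cantorSet)

/-- The two-parameter family `x_n = 2^{-n} + c μ^n`; the sequence of the problem is
`fam 1 (-1/3)`. -/
noncomputable def fam (c μ : ℝ) (n : ℕ) : ℝ := 1 / 2 ^ n + c * μ ^ n

open Pool.Agent.Y805.AS in
theorem crit (x u : ℕ → ℝ) (C δ : ℝ) (M : ℕ) (hδ : 0 < δ) (hx : ∀ n, 1 ≤ n → 0 < x n)
    (hu : ∀ n, 0 < u n) (hu2 : Antitone u) (hu3 : Tendsto u atTop (𝓝 0))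
    (hb : ∀ n, 1 ≤ n → |x n - 1 / 2 ^ n| ≤ C * (u n / 2 ^ n)) :
    ∃ ζ : ℕ → ℝ, Hyp x ζ ∧ (∀ n, ζ n = 8 * max C 1 * (u n / 2 ^ n)) := by
  have hC : 0 < max C 1 := lt_max_of_lt_right one_pos
  refine ⟨fun n => 8 * max C 1 * (u n / 2 ^ n), ⟨hx, fun n => ?_, fun n => ?_, fun n hn => ?_,
    fun η hη => ?_⟩, fun _ => rfl⟩
  · have := hu n
    positivity
  · have h1 : u (n + 1) ≤ u n := hu2 (Nat.le_succ n)
    have h2 : u (n + 1) / 2 ^ (n + 1) ≤ u n / 2 ^ n / 2 := by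
      rw [pow_succ, ← div_div]
      have h3 : u (n + 1) / 2 ^ n ≤ u n / 2 ^ n := div_le_div_of_nonneg_right h1 (by positivity)
      linarith
    calc 8 * max C 1 * (u (n + 1) / 2 ^ (n + 1)) ≤ 8 * max C 1 * (u n / 2 ^ n / 2) :=
          mul_le_mul_of_nonneg_left h2 (by positivity)
      _ = _ := by ring
  · refine (hb n hn).trans ?_
    have h1 : 0 ≤ u n / 2 ^ n := div_nonneg (hu n).le (by positivity)
    calc C * (u n / 2 ^ n) ≤ max C 1 * (u n / 2 ^ n) :=
          mul_le_mul_of_nonneg_right (le_max_left _ _) h1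
      _ = _ := by ring
  · obtain ⟨n₀, hn₀⟩ := ((tendsto_order.1 hu3).2 (η / (8 * max C 1))
      (by positivity)).exists_forall_of_atTop
    refine ⟨n₀, fun n hn => ?_⟩
    have h1 := hn₀ n hn
    rw [lt_div_iff₀ (by positivity)] at h1
    have h2 : 8 * max C 1 * (u n / 2 ^ n) = (u n * (8 * max C 1)) * (1 / 2 ^ n) := by ring
    rw [h2]
    exact mul_le_mul_of_nonneg_right h1.le (by positivity)

/-- the criterion -/
theorem criterion (x u : ℕ → ℝ) (C δ : ℝ) (M : ℕ) (hδ : 0 < δ) (hx : ∀ n, 1 ≤ n → 0 < x n)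
    (hu : ∀ n, 0 < u n) (hu2 : Antitone u) (hu3 : Tendsto u atTop (𝓝 0))
    (hb : ∀ n, 1 ≤ n → |x n - 1 / 2 ^ n| ≤ C * (u n / 2 ^ n))
    (hg : ∀ n : ℕ, ∃ l, n ≤ l ∧ l < n + M ∧ δ * (u l / 2 ^ l) ≤ x l - remainder x l) :
    IsCantor (achievementSet x) ∧ (Summable u → 0 < volume (achievementSet x)) := by
  obtain ⟨ζ, H, hζ⟩ := crit x u C δ M hδ hx hu hu2 hu3 hb
  have hC : 0 < max C 1 := lt_max_of_lt_right one_pos
  refine ⟨?_, fun hs => ?_⟩
  · refine Pool.Agent.Y805.AS.cantor H (g := δ / (8 * max C 1)) (by positivity) (B := M) ?_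
    intro n
    obtain ⟨l, h1, h2, h3⟩ := hg n
    refine ⟨l, h1, h2, le_trans (le_of_eq ?_) h3⟩
    rw [hζ]
    field_simp
  · refine Pool.Agent.Y805.AS.measure_pos H ?_
    have : (fun n => 2 ^ n * ζ n) = fun n => 8 * max C 1 * u n := by
      funext n
      rw [hζ]
      field_simp
    rw [this]
    exact hs.mul_left _

/-- the family satisfies the hypotheses -/
theorem fam_hyp {c μ : ℝ} (hμ : |μ| < 1 / 2) (hμ0 : μ ≠ 0) (hx : ∀ n, 1 ≤ n → 0 < fam c μ n) :
    (∀ n, 0 < (2 * |μ|) ^ n) ∧ Antitone (fun n : ℕ => (2 * |μ|) ^ n) ∧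
    Tendsto (fun n : ℕ => (2 * |μ|) ^ n) atTop (𝓝 0) ∧ Summable (fun n : ℕ => (2 * |μ|) ^ n) ∧
    (∀ n, 1 ≤ n → |fam c μ n - 1 / 2 ^ n| ≤ |c| * ((2 * |μ|) ^ n / 2 ^ n)) := by
  have h0 : 0 < |μ| := abs_pos.2 hμ0
  have h1 : 0 ≤ 2 * |μ| := by positivity
  have h2 : 2 * |μ| < 1 := by linarith
  refine ⟨fun n => by positivity, fun a b hab => pow_le_pow_of_le_one h1 h2.le hab,
    tendsto_pow_atTop_nhds_zero_of_lt_one h1 h2, summable_geometric_of_lt_one h1 h2,
    fun n _ => ?_⟩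
  unfold fam
  rw [add_sub_cancel_left, abs_mul, abs_pow, mul_pow]
  refine le_of_eq ?_
  field_simp

theorem fam_rem {c μ : ℝ} (hμ : |μ| < 1 / 2) (n : ℕ) :
    remainder (fam c μ) n = 1 / 2 ^ n + c * (μ ^ (n + 1) / (1 - μ)) := by
  have h1 := Pool.Agent.Y805.AS.geo n
  have h2 : HasSum (fun i : ℕ => c * μ ^ (i + (n + 1))) (c * (μ ^ (n + 1) / (1 - μ))) := by
    have h3 := (hasSum_geometric_of_abs_lt_one (r := μ) (by linarith)).mul_left (μ ^ (n + 1))
    have h4 := h3.mul_left c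
    have e1 : (fun i : ℕ => c * μ ^ (i + (n + 1))) = fun i : ℕ => c * (μ ^ (n + 1) * μ ^ i) := by
      funext i
      rw [pow_add]
      ring
    rw [e1, div_eq_mul_inv]
    exact h4
  exact (h1.add h2).tsum_eq

theorem fam_gap {c μ : ℝ} (hμ : |μ| < 1 / 2) (n : ℕ) :
    fam c μ n - remainder (fam c μ) n = (1 - 2 * μ) / (1 - μ) * (c * μ ^ n) := by
  have h1 := abs_lt.1 hμ
  have h2 : 1 - μ ≠ 0 := by linarith [h1.2]
  rw [fam_rem hμ]
  unfold fam
  rw [pow_succ]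
  field_simp
  ring

theorem fam_pos {μ : ℝ} (hμ : |μ| < 1 / 2) : 0 < (1 - 2 * μ) / (1 - μ) := by
  have h1 := abs_lt.1 hμ
  exact div_pos (by linarith [h1.2]) (by linarith [h1.2])

/-- Cantor set case -/
theorem fam_cantor {c μ : ℝ} (hμ : |μ| < 1 / 2) (hμ0 : μ ≠ 0) (hc : c ≠ 0)
    (hx : ∀ n, 1 ≤ n → 0 < fam c μ n) (h : μ < 0 ∨ 0 < c) :
    IsCantor (achievementSet (fam c μ)) ∧ 0 < volume (achievementSet (fam c μ)) := by
  obtain ⟨h1, h2, h3, h4, h5⟩ := fam_hyp hμ hμ0 hx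
  have hκ := fam_pos hμ
  have hres := criterion (fam c μ) (fun n => (2 * |μ|) ^ n) |c|
    ((1 - 2 * μ) / (1 - μ) * |c|) 2 (by have := abs_pos.2 hc; positivity) hx h1 h2 h3 h5 (by
    intro n
    obtain ⟨l, hl1, hl2, hl3⟩ : ∃ l, n ≤ l ∧ l < n + 2 ∧ c * μ ^ l = |c| * |μ| ^ l := by
      rcases lt_or_gt_of_ne hμ0 with hm | hm
      · -- alternating signs
        rcases lt_or_gt_of_ne hc with hc' | hc'
        · -- odd
          obtain ⟨l, hl1, hl2, hl3⟩ : ∃ l, n ≤ l ∧ l < n + 2 ∧ Odd l := by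
            rcases Nat.even_or_odd n with hn | hn
            · exact ⟨n + 1, by omega, by omega, hn.add_one⟩
            · exact ⟨n, le_rfl, by omega, hn⟩
          refine ⟨l, hl1, hl2, ?_⟩
          rw [abs_of_neg hc', abs_of_neg hm, hl3.neg_pow]
          ring
        · obtain ⟨l, hl1, hl2, hl3⟩ : ∃ l, n ≤ l ∧ l < n + 2 ∧ Even l := by
            rcases Nat.even_or_odd n with hn | hn
            · exact ⟨n, le_rfl, by omega, hn⟩
            · exact ⟨n + 1, by omega, by omega, hn.add_one⟩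
          refine ⟨l, hl1, hl2, ?_⟩
          rw [abs_of_pos hc', abs_of_neg hm, hl3.neg_pow]
      · rcases h with h | h
        · linarith
        · exact ⟨n, le_rfl, by omega, by rw [abs_of_pos h, abs_of_pos hm]⟩
    refine ⟨l, hl1, hl2, ?_⟩
    rw [fam_gap hμ, hl3, mul_pow]
    refine le_of_eq ?_
    field_simp)
  exact ⟨hres.1, hres.2 h4⟩

/-- interval case -/
theorem fam_interval {c μ : ℝ} (hμ : |μ| < 1 / 2) (hμ0 : 0 < μ) (hc : c < 0)
    (hx : ∀ n, 1 ≤ n → 0 < fam c μ n) :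
    achievementSet (fam c μ) = Icc 0 (remainder (fam c μ) 0) := by
  obtain ⟨h1, h2, h3, h4, h5⟩ := fam_hyp hμ hμ0.ne' hx
  obtain ⟨ζ, H, -⟩ := crit (fam c μ) (fun n => (2 * |μ|) ^ n) |c| 1 0 one_pos hx h1 h2 h3 h5
  refine Pool.Agent.Y805.AS.interval H fun n => ?_
  have h6 := fam_gap (c := c) hμ (n + 1)
  have h7 := fam_pos hμ
  have h8 : c * μ ^ (n + 1) < 0 := mul_neg_of_neg_of_pos hc (by positivity)
  have h9 : (1 - 2 * μ) / (1 - μ) * (c * μ ^ (n + 1)) < 0 := mul_neg_of_pos_of_neg h7 h8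
  have h10 : remainder (fam c μ) (n + 1) = Pool.Agent.Y805.AS.r (fam c μ) (n + 1) := rfl
  linarith

/-- the measure for the sequence of the problem -/
theorem posed_measure : ENNReal.ofReal (1 / 4) ≤ volume (achievementSet (fam 1 (-1 / 3))) := by
  have hμ : |(-1 / 3 : ℝ)| < 1 / 2 := by rw [abs_lt]; norm_num
  have hx : ∀ n, 1 ≤ n → 0 < fam 1 (-1 / 3) n := by
    intro n hn
    unfold fam
    have h1 : |(-1 / 3 : ℝ) ^ n| < 1 / 2 ^ n := by
      rw [abs_pow, show |(-1 / 3 : ℝ)| = 1 / 3 by rw [abs_of_neg (by norm_num)]; norm_num,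
        div_pow, one_pow]
      exact one_div_lt_one_div_of_lt (by positivity)
        (pow_lt_pow_left₀ (by norm_num) (by norm_num) (by omega))
    have h2 := (abs_lt.1 h1).1
    linarith
  obtain ⟨h1, h2, h3, h4, h5⟩ := fam_hyp hμ (by norm_num) hx
  obtain ⟨ζ, H, -⟩ := crit (fam 1 (-1 / 3)) (fun n => (2 * |(-1 / 3 : ℝ)|) ^ n) |1| 1 0 one_pos hx
    h1 h2 h3 h5
  have hr0 : Pool.Agent.Y805.AS.r (fam 1 (-1 / 3)) 0 = 3 / 4 := by
    have := fam_rem (c := 1) hμ 0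
    have h6 : Pool.Agent.Y805.AS.r (fam 1 (-1 / 3)) 0 = remainder (fam 1 (-1 / 3)) 0 := rfl
    rw [h6, this]
    norm_num
  have hgam : ∀ i, Pool.Agent.Y805.AS.gam (fam 1 (-1 / 3)) i =
      max 0 (5 / 4 * (-1 / 3 : ℝ) ^ (i + 1)) := by
    intro i
    have := fam_gap (c := 1) hμ (i + 1)
    have h6 : Pool.Agent.Y805.AS.r (fam 1 (-1 / 3)) (i + 1) = remainder (fam 1 (-1 / 3)) (i + 1) :=
      rfl
    unfold Pool.Agent.Y805.AS.gam
    rw [h6, this]
    norm_num
  have hge : ENNReal.ofReal (3 / 4 - 1 / 2) ≤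
      volume (Pool.Agent.Y805.AS.achSet (fam 1 (-1 / 3))) := by
    rw [← hr0]
    refine Pool.Agent.Y805.AS.measure_ge H 0 (1 / 2) (by norm_num) (by rw [hr0]; norm_num) ?_
    have h2n : ∀ m : ℕ, ∑ i ∈ Finset.range (2 * m),
        2 ^ i * Pool.Agent.Y805.AS.gam (fam 1 (-1 / 3)) (0 + i) = 1 / 2 * (1 - (4 / 9) ^ m) := by
      intro m
      induction m with
      | zero => simp
      | succ m ih =>
        have e1 : (-1 / 3 : ℝ) ^ (2 * m + 1) = -(1 / 3 * (1 / 9) ^ m) := by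
          rw [pow_succ, pow_mul]; norm_num; ring
        have e2 : (-1 / 3 : ℝ) ^ (2 * m + 1 + 1) = 1 / 9 * (1 / 9) ^ m := by
          rw [pow_succ, e1]; ring
        have e3 : (0 : ℝ) < (1 / 9) ^ m := by positivity
        rw [show 2 * (m + 1) = 2 * m + 1 + 1 by ring, Finset.sum_range_succ, Finset.sum_range_succ,
          ih, zero_add, zero_add, hgam, hgam, e1, e2, max_eq_left (by linarith),
          max_eq_right (by linarith)]
        have e4 : (4 / 9 : ℝ) ^ m = 4 ^ m * (1 / 9) ^ m := by rw [← mul_pow]; norm_num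
        have e5 : (2 : ℝ) ^ (2 * m) = 4 ^ m := by rw [pow_mul]; norm_num
        rw [pow_succ (4 / 9 : ℝ), pow_succ (2 : ℝ), e4, e5]
        ring
    intro n
    calc ∑ i ∈ Finset.range n, 2 ^ i * Pool.Agent.Y805.AS.gam (fam 1 (-1 / 3)) (0 + i)
        ≤ ∑ i ∈ Finset.range (2 * n), 2 ^ i * Pool.Agent.Y805.AS.gam (fam 1 (-1 / 3)) (0 + i) := by
          refine Finset.sum_le_sum_of_subset_of_nonneg ?_ fun i _ _ => ?_
          · exact Finset.range_mono (by omega)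
          · exact mul_nonneg (by positivity) (Pool.Agent.Y805.AS.gam_nonneg _)
      _ = 1 / 2 * (1 - (4 / 9) ^ n) := h2n n
      _ ≤ 1 / 2 := by
          have : (0 : ℝ) < (4 / 9) ^ n := by positivity
          linarith
  refine le_trans (ENNReal.ofReal_le_ofReal (by norm_num)) hge

/-- sharpness (helper96): at `μ = -1/2` arbitrarily small amplitudes give sets with interior -/
theorem sharp (j : ℕ) : (∀ n, 0 < fam (1 / (16 * j + 7)) (-1 / 2) n) ∧
    (interior (achievementSet (fam (1 / (16 * j + 7)) (-1 / 2)))).Nonempty ∧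
    ¬ IsCantor (achievementSet (fam (1 / (16 * j + 7)) (-1 / 2))) := by
  have h : fam (1 / (16 * j + 7)) (-1 / 2) = Pool.Agent.Y96.AC.Sharp.y j := by
    funext n
    unfold fam Pool.Agent.Y96.AC.Sharp.y
    rw [show (-1 / 2 : ℝ) = -(1 / 2) by norm_num]
  rw [h]
  have h2 := Pool.Agent.Y96.AC.Sharp.y_interior j
  exact ⟨Pool.Agent.Y96.AC.Sharp.y_pos j, h2, Pool.Agent.Y96.AC.Sharp.not_cantor h2⟩

/-- (1) Let `x_n = 2^{-n} + y_n > 0` with `|y_n| ≤ C u_n 2^{-n}`, where `u` is positive,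
nonincreasing and tends to zero, and let `x_l - r_l ≥ δ u_l 2^{-l}`, `δ > 0`, for some `l` in every
window of `M` consecutive integers.  Then `E(x_n)` is a Cantor set, of positive Lebesgue measure if
`u` is summable.
(2) For `0 < |μ| < 1/2`, `c ≠ 0` and `x_n = 2^{-n} + c μ^n > 0`, the set `E(x_n)` is a Cantor set of
positive Lebesgue measure if `μ < 0` or `c > 0`, and the interval `[0, r_0]` otherwise.
(3) For the sequence `x_n = 2^{-n} + (-1)^n 3^{-n}` the measure of `E(x_n)` is at least `1/4`.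
(4) The condition `u_n → 0` (in (2): `|μ| < 1/2`) cannot be dropped, even for small amplitudes: for
`μ = -1/2` and `c = 1/(16 j + 7)`, `j = 0, 1, 2, …`, the set `E(x_n)` has interior points. -/
theorem result :
    (∀ (x u : ℕ → ℝ) (C δ : ℝ) (M : ℕ), 0 < δ → (∀ n, 1 ≤ n → 0 < x n) → (∀ n, 0 < u n) →
      Antitone u → Tendsto u atTop (𝓝 0) →
      (∀ n, 1 ≤ n → |x n - 1 / 2 ^ n| ≤ C * (u n / 2 ^ n)) →
      (∀ n : ℕ, ∃ l, n ≤ l ∧ l < n + M ∧ δ * (u l / 2 ^ l) ≤ x l - remainder x l) →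
      IsCantor (achievementSet x) ∧ (Summable u → 0 < volume (achievementSet x))) ∧
    (∀ c μ : ℝ, μ ≠ 0 → |μ| < 1 / 2 → c ≠ 0 → (∀ n, 1 ≤ n → 0 < fam c μ n) →
      (μ < 0 ∨ 0 < c →
        IsCantor (achievementSet (fam c μ)) ∧ 0 < volume (achievementSet (fam c μ))) ∧
      (0 < μ ∧ c < 0 → achievementSet (fam c μ) = Icc 0 (remainder (fam c μ) 0))) ∧
    ((∀ n, fam 1 (-1 / 3) n = 1 / 2 ^ n + (-1) ^ n / 3 ^ n) ∧
      IsCantor (achievementSet (fam 1 (-1 / 3))) ∧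
      ENNReal.ofReal (1 / 4) ≤ volume (achievementSet (fam 1 (-1 / 3)))) ∧
    (∀ j : ℕ, (∀ n, 0 < fam (1 / (16 * j + 7)) (-1 / 2) n) ∧
      (interior (achievementSet (fam (1 / (16 * j + 7)) (-1 / 2)))).Nonempty ∧
      ¬ IsCantor (achievementSet (fam (1 / (16 * j + 7)) (-1 / 2)))) := by
  refine ⟨criterion, fun c μ hμ0 hμ hc hx => ⟨fam_cantor hμ hμ0 hc hx,
    fun h => fam_interval hμ h.1 h.2 hx⟩, ⟨fun n => ?_, ?_, posed_measure⟩, sharp⟩
  · unfold fam
    rw [div_pow, one_mul]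
  · refine (fam_cantor (by rw [abs_lt]; norm_num) (by norm_num) one_ne_zero ?_
      (Or.inr one_pos)).1
    intro n hn
    unfold fam
    have h1 : |(-1 / 3 : ℝ) ^ n| < 1 / 2 ^ n := by
      rw [abs_pow, show |(-1 / 3 : ℝ)| = 1 / 3 by rw [abs_of_neg (by norm_num)]; norm_num,
        div_pow, one_pow]
      exact one_div_lt_one_div_of_lt (by positivity)
        (pow_lt_pow_left₀ (by norm_num) (by norm_num) (by omega))
    have h2 := (abs_lt.1 h1).1
    linarith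

end Pool.Agent.Results.MP_c19edd_an.CantorCriterion
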